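import Pool.Agent.Helper10.RC.Homs

/-!
# MP_b55b7c_an, packet QB2: quasitraces of the unit, of direct sums and of diagonal matrices
-/

open scoped ENNReal NNReal InnerProductSpace ComplexOrder
open Filter Topology

attribute [-instance] CStarMatrix.instAlgebra CStarMatrix.instModule CStarMatrix.instSMul
  CStarMatrix.instMulAction CStarMatrix.instDistribMulAction

set_option linter.unusedSectionVars false

noncomputable section
namespace RC
universe u

namespace QB231

variable {A : Type u} [CStarAlgebra A] [PartialOrder A] [StarOrderedRing A]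
variable {ι κ : Type} [Fintype ι] [DecidableEq ι] [Fintype κ] [DecidableEq κ]

/-- partial diagonal matrices. -/
def dS (S : Finset κ) (x : A) : CStarMatrix κ κ A :=
  CStarMatrix.ofMatrix (Matrix.diagonal fun k => if k ∈ S then x else 0)

lemma dS_apply (S : Finset κ) (x : A) (i j : κ) :
    dS S x i j = if i = j then (if i ∈ S then x else 0) else 0 := rfl

lemma dS_mul (S T : Finset κ) (x y : A) : dS S x * dS T y = dS (S ∩ T) (x * y) := by
  ext i j
  rw [CStarMatrix.mul_apply, Finset.sum_eq_single i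
    (by intro b _ hb; rw [dS_apply, if_neg (Ne.symm hb), zero_mul]) (by simp)]
  simp only [dS_apply, if_true, Finset.mem_inter]
  split_ifs <;> simp_all

lemma dS_star (S : Finset κ) (x : A) : (dS S x).conjTranspose = dS S (star x) := by
  ext i j
  rw [CStarMatrix.conjTranspose_apply, dS_apply, dS_apply]
  by_cases h : i = j
  · subst h
    by_cases h' : i ∈ S <;> simp [h']
  · simp [h, Ne.symm h]

lemma dS_nonneg (S : Finset κ) {x : A} (hx : 0 ≤ x) : 0 ≤ dS S x := by
  obtain ⟨s, hs⟩ := CStarAlgebra.nonneg_iff_eq_mul_star_self.mp hx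
  have : dS S x = dS S s * (dS S s).conjTranspose := by
    rw [dS_star, dS_mul, Finset.inter_self, hs]
  rw [this]
  exact cm_mul_conj_nonneg _

/-- a column with one nonzero entry. -/
def col (i : κ) (s : A) : CStarMatrix κ Unit A :=
  CStarMatrix.ofMatrix fun k _ => if k = i then s else 0

lemma col_apply (i : κ) (s : A) (k : κ) (u : Unit) : col i s k u = if k = i then s else 0 := rfl

lemma tau_single (σ : QTrace A) (i : κ) {x : A} (hx : 0 ≤ x) :
    σ.τ κ (dS {i} x) = σ.τ Unit (one1 x) := by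
  obtain ⟨s, hs⟩ := CStarAlgebra.nonneg_iff_eq_mul_star_self.mp hx
  have h1 : col i s * (col i s).conjTranspose = dS {i} x := by
    ext k l
    rw [CStarMatrix.mul_apply, dS_apply, Fintype.sum_unique, CStarMatrix.conjTranspose_apply,
      col_apply, col_apply, hs]
    by_cases hk : k = i
    · subst hk
      by_cases hl : l = k
      · subst hl; simp
      · simp [hl, Ne.symm hl]
    · by_cases hkl : k = l
      · subst hkl; simp [hk]
      · simp [hk]
  have h2 : (col i s).conjTranspose * col i s = one1 (star s * s) := by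
    ext k l
    rw [CStarMatrix.mul_apply, Finset.sum_eq_single i]
    · rw [CStarMatrix.conjTranspose_apply, col_apply, if_pos rfl]
      rfl
    · intro b _ hb
      rw [CStarMatrix.conjTranspose_apply, col_apply, if_neg hb, star_zero, zero_mul]
    · simp
  have h3 : one1 s * (one1 s).conjTranspose = one1 x := by
    ext k l
    rw [CStarMatrix.mul_apply, Fintype.sum_unique, CStarMatrix.conjTranspose_apply, hs]
    rfl
  have h4 : (one1 s).conjTranspose * one1 s = one1 (star s * s) := by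
    ext k l
    rw [CStarMatrix.mul_apply, Fintype.sum_unique, CStarMatrix.conjTranspose_apply]
    rfl
  have t1 := σ.trace κ Unit (col i s)
  have t2 := σ.trace Unit Unit (one1 s)
  rw [h1, h2] at t1
  rw [h3, h4] at t2
  rw [t1, t2]

lemma tau_dS (σ : QTrace A) (S : Finset κ) {x : A} (hx : 0 ≤ x) :
    σ.τ κ (dS S x) = S.card * σ.τ Unit (one1 x) := by
  induction S using Finset.induction_on with
  | empty =>
    have : dS (∅ : Finset κ) x = 0 := by
      ext i j
      rw [dS_apply]; simp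
    rw [this, σ.zero]
    simp
  | insert i S hi ih =>
    have h1 : dS (insert i S) x = dS {i} x + dS S x := by
      ext k l
      rw [CStarMatrix.add_apply, dS_apply, dS_apply, dS_apply]
      by_cases hkl : k = l
      · subst hkl
        by_cases hk : k = i
        · subst hk; simp [hi]
        · simp [hk]
      · simp [hkl]
    have h2 : ∀ T U : Finset κ, T ∩ U = ∅ → dS T x * dS U x = 0 := by
      intro T U hTU
      rw [dS_mul, hTU]
      ext i j
      rw [dS_apply]; simp
    have e1 : ({i} : Finset κ) ∩ S = ∅ := Finset.singleton_inter_of_notMem hi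
    have e2 : S ∩ ({i} : Finset κ) = ∅ := Finset.inter_singleton_of_notMem hi
    rw [h1, σ.add κ _ _ (dS_nonneg _ hx) (dS_nonneg _ hx) (by rw [h2 _ _ e1, h2 _ _ e2]),
      tau_single σ i hx, ih, Finset.card_insert_of_notMem hi]
    push_cast
    ring

lemma tau_dg (σ : QTrace A) {x : A} (hx : 0 ≤ x) :
    σ.τ κ (dg κ x) = Fintype.card κ * σ.τ Unit (one1 x) := by
  have : dg κ x = dS Finset.univ x := by
    ext i j
    rw [dS_apply, dg_apply]; simp
  rw [this, tau_dS σ _ hx, Finset.card_univ]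

lemma dg_one : dg κ (1 : A) = 1 := by
  ext i j
  rw [dg_apply, CStarMatrix.one_apply]

lemma one1_one : one1 (1 : A) = 1 := by
  ext i j
  simp [one1]

lemma tau_one (σ : QTrace A) : σ.τ κ 1 = Fintype.card κ := by
  rw [← dg_one, tau_dg σ zero_le_one, one1_one, σ.one, mul_one]

/-! ### direct sums -/

lemma dsum_inl_inl (a : CStarMatrix ι ι A) (b : CStarMatrix κ κ A) (i j : ι) :
    dsum a b (Sum.inl i) (Sum.inl j) = a i j := rfl
lemma dsum_inl_inr (a : CStarMatrix ι ι A) (b : CStarMatrix κ κ A) (i : ι) (j : κ) :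
    dsum a b (Sum.inl i) (Sum.inr j) = 0 := rfl
lemma dsum_inr_inl (a : CStarMatrix ι ι A) (b : CStarMatrix κ κ A) (i : κ) (j : ι) :
    dsum a b (Sum.inr i) (Sum.inl j) = 0 := rfl
lemma dsum_inr_inr (a : CStarMatrix ι ι A) (b : CStarMatrix κ κ A) (i j : κ) :
    dsum a b (Sum.inr i) (Sum.inr j) = b i j := rfl

/-- `dsum` as a *-homomorphism. -/
def dsumH (ι κ : Type) [Fintype ι] [DecidableEq ι] [Fintype κ] [DecidableEq κ] :
    (CStarMatrix ι ι A × CStarMatrix κ κ A) →⋆ₐ[ℂ] CStarMatrix (ι ⊕ κ) (ι ⊕ κ) A where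
  toFun p := dsum p.1 p.2
  map_one' := by
    ext i j
    rcases i with i | i <;> rcases j with j | j
    · rw [dsum_inl_inl, CStarMatrix.one_apply]; simp [CStarMatrix.one_apply]
    · rw [dsum_inl_inr, CStarMatrix.one_apply]; simp
    · rw [dsum_inr_inl, CStarMatrix.one_apply]; simp
    · rw [dsum_inr_inr, CStarMatrix.one_apply]; simp [CStarMatrix.one_apply]
  map_mul' x y := by
    ext i j
    rw [CStarMatrix.mul_apply, Fintype.sum_sum_type]
    rcases i with i | i <;> rcases j with j | j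
    · simp only [dsum_inl_inl, dsum_inl_inr, dsum_inr_inl, mul_zero, Finset.sum_const_zero,
        add_zero, Prod.fst_mul]
      exact CStarMatrix.mul_apply
    · simp only [dsum_inl_inl, dsum_inl_inr, dsum_inr_inr, mul_zero, zero_mul,
        Finset.sum_const_zero, add_zero]
    · simp only [dsum_inl_inl, dsum_inr_inl, dsum_inr_inr, mul_zero, zero_mul,
        Finset.sum_const_zero, add_zero]
    · simp only [dsum_inr_inr, dsum_inl_inr, dsum_inr_inl, mul_zero, Finset.sum_const_zero,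
        zero_add, Prod.snd_mul]
      exact CStarMatrix.mul_apply
  map_zero' := by
    ext i j
    rcases i with i | i <;> rcases j with j | j <;> rfl
  map_add' x y := by
    ext i j
    rw [CStarMatrix.add_apply]
    rcases i with i | i <;> rcases j with j | j
    · rfl
    · simp only [dsum_inl_inr, add_zero]
    · simp only [dsum_inr_inl, add_zero]
    · rfl
  commutes' c := by
    ext i j
    rw [cm_algebraMap_apply]
    have e1 : (algebraMap ℂ (CStarMatrix ι ι A × CStarMatrix κ κ A) c).1 =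
      algebraMap ℂ (CStarMatrix ι ι A) c := rfl
    have e2 : (algebraMap ℂ (CStarMatrix ι ι A × CStarMatrix κ κ A) c).2 =
      algebraMap ℂ (CStarMatrix κ κ A) c := rfl
    rw [e1, e2]
    rcases i with i | i <;> rcases j with j | j
    · rw [dsum_inl_inl, cm_algebraMap_apply]; simp
    · rw [dsum_inl_inr]; simp
    · rw [dsum_inr_inl]; simp
    · rw [dsum_inr_inr, cm_algebraMap_apply]; simp
  map_star' x := by
    ext i j
    rw [CStarMatrix.star_apply]
    rcases i with i | i <;> rcases j with j | j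
    · rfl
    · simp only [dsum_inl_inr, dsum_inr_inl, star_zero]
    · simp only [dsum_inl_inr, dsum_inr_inl, star_zero]
    · rfl

lemma dsumH_apply (a : CStarMatrix ι ι A) (b : CStarMatrix κ κ A) :
    dsumH ι κ (a, b) = dsum a b := rfl

lemma dsum_nonneg {a : CStarMatrix ι ι A} {b : CStarMatrix κ κ A} (ha : 0 ≤ a) (hb : 0 ≤ b) :
    0 ≤ dsum a b := by
  have h : (0 : CStarMatrix ι ι A × CStarMatrix κ κ A) ≤ (a, b) := ⟨ha, hb⟩
  obtain ⟨s, hs⟩ := CStarAlgebra.nonneg_iff_eq_mul_star_self.mp ha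
  obtain ⟨t, ht⟩ := CStarAlgebra.nonneg_iff_eq_mul_star_self.mp hb
  have : dsum a b = dsum s t * star (dsum s t) := by
    rw [← dsumH_apply, ← dsumH_apply, ← map_star, ← map_mul]
    congr 1
    rw [hs, ht]
    rfl
  rw [this]
  exact mul_star_self_nonneg _

lemma gen {D E F G : Type u} [CStarAlgebra D] [CStarAlgebra E] [CStarAlgebra F] [CStarAlgebra G]
    (p1 : D →⋆ₐ[ℂ] E) (p2 : D →⋆ₐ[ℂ] F) (Φ : D →⋆ₐ[ℂ] G)
    (hinj : ∀ x y : D, p1 x = p1 y → p2 x = p2 y → x = y) (f : ℝ → ℝ) (hf : Continuous f)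
    (d x : D) (hd : IsSelfAdjoint d) (h1 : p1 x = cfc f (p1 d)) (h2 : p2 x = cfc f (p2 d)) :
    Φ x = cfc f (Φ d) := by
  have : x = cfc f d := hinj _ _ (by rw [h1, starHom_cfc p1 f hf d hd])
    (by rw [h2, starHom_cfc p2 f hf d hd])
  rw [this, starHom_cfc Φ f hf d hd]

lemma dsum_cfc (f : ℝ → ℝ) (hf : Continuous f) {a : CStarMatrix ι ι A} {b : CStarMatrix κ κ A}
    (ha : 0 ≤ a) (hb : 0 ≤ b) : dsum (cfc f a) (cfc f b) = cfc f (dsum a b) := by
  have hab : IsSelfAdjoint (a, b) := by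
    have := ha.isSelfAdjoint
    have := hb.isSelfAdjoint
    rw [isSelfAdjoint_iff]
    ext1 <;> assumption
  exact gen (StarAlgHom.fst ℂ (CStarMatrix ι ι A) (CStarMatrix κ κ A))
    (StarAlgHom.snd ℂ (CStarMatrix ι ι A) (CStarMatrix κ κ A)) (dsumH ι κ)
    (fun x y h1 h2 => Prod.ext h1 h2) f hf (a, b) (cfc f a, cfc f b) hab rfl rfl

/-- the column `[s; 0]`. -/
def cl (κ : Type) (s : CStarMatrix ι ι A) : CStarMatrix (ι ⊕ κ) ι A :=
  CStarMatrix.ofMatrix fun k j => Sum.elim (fun i => s i j) (fun _ => 0) k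

/-- the column `[0; s]`. -/
def cr (ι : Type) (s : CStarMatrix κ κ A) : CStarMatrix (ι ⊕ κ) κ A :=
  CStarMatrix.ofMatrix fun k j => Sum.elim (fun _ => 0) (fun i => s i j) k

lemma cl_inl (s : CStarMatrix ι ι A) (i j : ι) : cl κ s (Sum.inl i) j = s i j := rfl
lemma cl_inr (s : CStarMatrix ι ι A) (i : κ) (j : ι) : cl κ s (Sum.inr i) j = 0 := rfl
lemma cr_inl (s : CStarMatrix κ κ A) (i : ι) (j : κ) : cr ι s (Sum.inl i) j = 0 := rfl
lemma cr_inr (s : CStarMatrix κ κ A) (i j : κ) : cr ι s (Sum.inr i) j = s i j := rfl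

lemma tau_inl (σ : QTrace A) {x : CStarMatrix ι ι A} (hx : 0 ≤ x) :
    σ.τ (ι ⊕ κ) (dsum x (0 : CStarMatrix κ κ A)) = σ.τ ι x := by
  obtain ⟨s, hs⟩ := CStarAlgebra.nonneg_iff_eq_mul_star_self.mp hx
  have h1 : cl κ s * (cl κ s).conjTranspose = dsum x (0 : CStarMatrix κ κ A) := by
    ext i j
    rw [CStarMatrix.mul_apply]
    rcases i with i | i <;> rcases j with j | j
    · rw [dsum_inl_inl, hs, CStarMatrix.mul_apply]
      rfl
    · rw [dsum_inl_inr]
      refine Finset.sum_eq_zero fun l _ => ?_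
      rw [CStarMatrix.conjTranspose_apply, cl_inr, star_zero, mul_zero]
    · rw [dsum_inr_inl]
      refine Finset.sum_eq_zero fun l _ => ?_
      rw [cl_inr, zero_mul]
    · rw [dsum_inr_inr]
      refine Finset.sum_eq_zero fun l _ => ?_
      rw [cl_inr, zero_mul]
  have h2 : (cl κ s).conjTranspose * cl κ s = s.conjTranspose * s := by
    ext i j
    rw [CStarMatrix.mul_apply, CStarMatrix.mul_apply, Fintype.sum_sum_type]
    have : ∑ k : κ, (cl κ s).conjTranspose i (Sum.inr k) * cl κ s (Sum.inr k) j = 0 := by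
      refine Finset.sum_eq_zero fun l _ => ?_
      rw [cl_inr, mul_zero]
    rw [this, add_zero]
    rfl
  have t1 := σ.trace (ι ⊕ κ) ι (cl κ s)
  have t2 := σ.trace ι ι s
  rw [h1, h2] at t1
  rw [t1, ← t2, hs]
  rfl

lemma tau_inr (σ : QTrace A) {x : CStarMatrix κ κ A} (hx : 0 ≤ x) :
    σ.τ (ι ⊕ κ) (dsum (0 : CStarMatrix ι ι A) x) = σ.τ κ x := by
  obtain ⟨s, hs⟩ := CStarAlgebra.nonneg_iff_eq_mul_star_self.mp hx
  have h1 : cr ι s * (cr ι s).conjTranspose = dsum (0 : CStarMatrix ι ι A) x := by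
    ext i j
    rw [CStarMatrix.mul_apply]
    rcases i with i | i <;> rcases j with j | j
    · rw [dsum_inl_inl]
      refine Finset.sum_eq_zero fun l _ => ?_
      rw [cr_inl, zero_mul]
    · rw [dsum_inl_inr]
      refine Finset.sum_eq_zero fun l _ => ?_
      rw [cr_inl, zero_mul]
    · rw [dsum_inr_inl]
      refine Finset.sum_eq_zero fun l _ => ?_
      rw [CStarMatrix.conjTranspose_apply, cr_inl, star_zero, mul_zero]
    · rw [dsum_inr_inr, hs, CStarMatrix.mul_apply]
      rfl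
  have h2 : (cr ι s).conjTranspose * cr ι s = s.conjTranspose * s := by
    ext i j
    rw [CStarMatrix.mul_apply, CStarMatrix.mul_apply, Fintype.sum_sum_type]
    have : ∑ k : ι, (cr ι s).conjTranspose i (Sum.inl k) * cr ι s (Sum.inl k) j = 0 := by
      refine Finset.sum_eq_zero fun l _ => ?_
      rw [cr_inl, mul_zero]
    rw [this, zero_add]
    rfl
  have t1 := σ.trace (ι ⊕ κ) κ (cr ι s)
  have t2 := σ.trace κ κ s
  rw [h1, h2] at t1
  rw [t1, ← t2, hs]
  rfl

lemma tau_dsum (σ : QTrace A) {x : CStarMatrix ι ι A} {y : CStarMatrix κ κ A} (hx : 0 ≤ x)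
    (hy : 0 ≤ y) : σ.τ (ι ⊕ κ) (dsum x y) = σ.τ ι x + σ.τ κ y := by
  have h1 : dsum x y = dsum x (0 : CStarMatrix κ κ A) + dsum (0 : CStarMatrix ι ι A) y := by
    rw [← dsumH_apply, ← dsumH_apply, ← dsumH_apply, ← map_add]
    simp
  have h2 : dsum x (0 : CStarMatrix κ κ A) * dsum (0 : CStarMatrix ι ι A) y = 0 := by
    rw [← dsumH_apply, ← dsumH_apply, ← map_mul]
    have e : (x, (0 : CStarMatrix κ κ A)) * ((0 : CStarMatrix ι ι A), y) = 0 := by
      rw [Prod.mk_mul_mk, mul_zero, zero_mul]; rfl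
    rw [e, map_zero]
  have h3 : dsum (0 : CStarMatrix ι ι A) y * dsum x (0 : CStarMatrix κ κ A) = 0 := by
    rw [← dsumH_apply, ← dsumH_apply, ← map_mul]
    have e : ((0 : CStarMatrix ι ι A), y) * (x, (0 : CStarMatrix κ κ A)) = 0 := by
      rw [Prod.mk_mul_mk, mul_zero, zero_mul]; rfl
    rw [e, map_zero]
  rw [h1, σ.add _ _ _ (dsum_nonneg hx le_rfl) (dsum_nonneg le_rfl hy) (by rw [h2, h3]),
    tau_inl σ hx, tau_inr σ hy]

/-- the functions in the definition of `dim`. -/
abbrev fn (n : ℕ) : ℝ → ℝ := fun t : ℝ => min 1 ((n : ℝ) * t)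

lemma fn_cont (n : ℕ) : Continuous (fn n) := by fun_prop

lemma fn_nonneg (n : ℕ) {t : ℝ} (ht : 0 ≤ t) : 0 ≤ fn n t :=
  le_min zero_le_one (mul_nonneg (Nat.cast_nonneg n) ht)

lemma cfc_fn_nonneg {D : Type u} [CStarAlgebra D] [PartialOrder D] [StarOrderedRing D]
    (n : ℕ) {a : D} (ha : 0 ≤ a) : 0 ≤ cfc (fn n) a :=
  cfc_nonneg fun _ ht => fn_nonneg n (spectrum_nonneg_of_nonneg ha ht)

lemma fn_mono (σ : QTrace A) {a : CStarMatrix ι ι A} (ha : 0 ≤ a) :
    Monotone fun n : ℕ => σ.τ ι (cfc (fn n) a) := by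
  intro n m hnm
  refine σ.cfc_mono (fn_cont n).continuousOn (fn_cont m).continuousOn
    (fun t ht => fn_nonneg n (spectrum_nonneg_of_nonneg ha ht)) fun t ht => ?_
  have h0 := spectrum_nonneg_of_nonneg ha ht
  exact min_le_min le_rfl (mul_le_mul_of_nonneg_right (by exact_mod_cast hnm) h0)

end QB231

open QB231

/-- **Packet QB2, first part**. -/
theorem qOneP : QOneP.{u} := by
  intro A _ _ _ σ ι _ _
  refine ⟨tau_one σ, ?_⟩
  have hval : ∀ n : ℕ, σ.τ ι (cfc (fun t : ℝ => min 1 ((n : ℝ) * t)) (1 : CStarMatrix ι ι A)) =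
      if n = 0 then 0 else (Fintype.card ι : ℝ) := by
    intro n
    rw [cfc_apply_one]
    by_cases hn : n = 0
    · subst hn
      simp [σ.zero]
    · have : min 1 ((n : ℝ) * 1) = 1 := by
        rw [mul_one, min_eq_left]
        exact_mod_cast Nat.one_le_iff_ne_zero.2 hn
      rw [this, map_one, if_neg hn, tau_one σ]
  unfold QTrace.dim
  simp only [hval]
  apply le_antisymm
  · refine ciSup_le fun n => ?_
    split_ifs <;> simp
  · refine le_ciSup_of_le ?_ 1 (by simp)
    refine ⟨(Fintype.card ι : ℝ), ?_⟩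
    rintro _ ⟨n, rfl⟩
    simp only
    split_ifs <;> simp

/-- **Packet QB2, second part**. -/
theorem qDsumP (h : QBasicP.{u}) : QDsumP.{u} := by
  intro A _ _ _ σ ι κ _ _ _ _ a b ha hb
  refine ⟨dsum_nonneg ha hb, ?_⟩
  have hab := dsum_nonneg ha hb
  have t1 := tendsto_atTop_ciSup (fn_mono σ ha) (h A σ ι a ha).1
  have t2 := tendsto_atTop_ciSup (fn_mono σ hb) (h A σ κ b hb).1
  have t3 := tendsto_atTop_ciSup (fn_mono σ hab) (h A σ _ _ hab).1
  have he : (fun n : ℕ => σ.τ (ι ⊕ κ) (cfc (fn n) (dsum a b))) =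
      fun n : ℕ => σ.τ ι (cfc (fn n) a) + σ.τ κ (cfc (fn n) b) := by
    funext n
    rw [← dsum_cfc (fn n) (fn_cont n) ha hb, tau_dsum σ (cfc_fn_nonneg n ha) (cfc_fn_nonneg n hb)]
  have t4 : Tendsto (fun n : ℕ => σ.τ (ι ⊕ κ) (cfc (fn n) (dsum a b))) atTop
      (𝓝 (σ.dim a + σ.dim b)) := by
    rw [he]
    exact t1.add t2
  exact tendsto_nhds_unique t3 t4

/-- **Packet QB2, third part**. -/
theorem qDgP (_h : QBasicP.{u}) : QDgP.{u} := by
  intro A _ _ _ σ κ _ _ f hf
  refine ⟨dg_nonneg hf, ?_⟩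
  unfold QTrace.dim
  rw [Real.mul_iSup_of_nonneg (by positivity)]
  congr 1
  funext n
  have h1 := dg_cfc (κ := κ) (fn n) (fn_cont n) f hf.isSelfAdjoint
  have h2 := one1_cfc (fn n) (fn_cont n) f hf.isSelfAdjoint
  change σ.τ κ (cfc (fn n) (dg κ f)) = _ * σ.τ Unit (cfc (fn n) (one1 f))
  rw [← h1, ← h2, tau_dg σ (cfc_fn_nonneg n hf)]

end RC
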